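import Pool.Agent.H46.Lib.R_seed8.R433.MD.Fiber
import Pool.Agent.H46.Lib.R_seed8.H341R2.NF.TwistOrders

/-! The Euler product of an elliptic curve over a number field in the half plane of absolute
convergence, and its local factors. -/

set_option autoImplicit false

namespace Pool.Agent.R433.MD

open NumberField IsDedekindDomain Complex Filter Topology
open Pool.Agent.H921R2.TatePole (nm two_le_nm nm_summable)
open Pool.Agent.H341R2.EC
open Pool.Agent.H341R2 (finite_v card_v chi chi_abs)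

section
variable {K : Type} [Field K] [NumberField K]

/-- the variable change to the short form -/
noncomputable def cShort (E : WeierstrassCurve K) : WeierstrassCurve.VariableChange K where
  u := Units.mk0 (1 / 6 : K) (by norm_num)
  r := -E.b₂ / 12
  s := -E.a₁ / 2
  t := -(E.a₃ + (-E.b₂ / 12) * E.a₁) / 2

theorem twist_one (E : WeierstrassCurve K) : twist E 1 = cShort E • E := by
  have h2 : (2 : K) ≠ 0 := by norm_num
  have h12 : (12 : K) ≠ 0 := by norm_num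
  have hu : (((Units.mk0 (1 / 6 : K) (by norm_num))⁻¹ : Kˣ) : K) = 6 := by
    rw [Units.val_inv_eq_inv_val, Units.val_mk0]
    norm_num
  have e0 : (cShort E).u = Units.mk0 (1 / 6 : K) (by norm_num) := rfl
  ext
  · rw [WeierstrassCurve.variableChange_a₁, e0, hu]
    simp only [twist, cShort]
    ring
  · rw [WeierstrassCurve.variableChange_a₂, e0, hu]
    simp only [twist, cShort, WeierstrassCurve.b₂]
    ring
  · rw [WeierstrassCurve.variableChange_a₃, e0, hu]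
    simp only [twist, cShort, WeierstrassCurve.b₂]
    ring
  · rw [WeierstrassCurve.variableChange_a₄, e0, hu]
    simp only [twist, cShort, WeierstrassCurve.b₂, WeierstrassCurve.b₄, WeierstrassCurve.c₄]
    ring
  · rw [WeierstrassCurve.variableChange_a₆, e0, hu]
    simp only [twist, cShort, WeierstrassCurve.b₂, WeierstrassCurve.b₄, WeierstrassCurve.b₆,
      WeierstrassCurve.c₆]
    ring

theorem isModel_smul (E : WeierstrassCurve K) (C₀ : WeierstrassCurve.VariableChange K)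
    (V : WeierstrassCurve (𝓞 K)) : IsModel (C₀ • E) V ↔ IsModel E V := by
  constructor
  · rintro ⟨C, hC⟩
    exact ⟨C * C₀, by rw [← hC, mul_smul]⟩
  · rintro ⟨C, hC⟩
    exact ⟨C * C₀⁻¹, by rw [mul_smul, inv_smul_smul, hC]⟩

theorem isMinAt_one (E : WeierstrassCurve K) (v : HeightOneSpectrum (𝓞 K))
    (V : WeierstrassCurve (𝓞 K)) (h : IsMinAt E v V) : IsMinAt (twist E 1) v V := by
  rw [twist_one]
  refine ⟨(isModel_smul E _ V).2 h.1, fun W hW => ?_⟩
  exact h.2 W ((isModel_smul E _ W).1 hW)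

/-- every elliptic curve has an integral model with nonzero discriminant -/
theorem exists_model (E : WeierstrassCurve K) (hE : E.IsElliptic) :
    ∃ W : WeierstrassCurve (𝓞 K), IsModel E W ∧ W.Δ ≠ 0 := by
  obtain ⟨l, P, Q, hl, hP, hQ, hD⟩ := exists_integral E hE
  have h1 := isModel_mdl E hl hP hQ 1
  refine ⟨mdl P Q 1, ?_, ?_⟩
  · have e1 : ((1 : 𝓞 K) : K) = 1 := map_one (algebraMap (𝓞 K) K)
    rw [e1, twist_one, isModel_smul] at h1
    exact h1
  · intro h
    have h2 := mdl_Δ P Q 1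
    rw [h, mul_zero] at h2
    have h6 : (6 : 𝓞 K) ≠ 0 := by norm_num
    exact mul_ne_zero (mul_ne_zero (pow_ne_zero _ h6) (by simp)) hD h2.symm

/-- the local factor (inverse) -/
noncomputable def lf (V : HeightOneSpectrum (𝓞 K) → WeierstrassCurve (𝓞 K)) (s : ℂ)
    (v : HeightOneSpectrum (𝓞 K)) : ℂ :=
  1 - (trc V v : ℂ) * ((nm v : ℕ) : ℂ) ^ (-s) + dlt V v * ((nm v : ℕ) : ℂ) ^ (1 - 2 * s)

theorem nm_pos (v : HeightOneSpectrum (𝓞 K)) : 0 < nm v := by
  have := two_le_nm v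
  omega

theorem norm_nm_cpow (v : HeightOneSpectrum (𝓞 K)) (z : ℂ) :
    ‖((nm v : ℕ) : ℂ) ^ z‖ = (nm v : ℝ) ^ z.re :=
  Complex.norm_natCast_cpow_of_pos (nm_pos v) z

theorem dlt_le (V : HeightOneSpectrum (𝓞 K) → WeierstrassCurve (𝓞 K))
    (v : HeightOneSpectrum (𝓞 K)) : ‖dlt V v‖ ≤ 1 := by
  unfold dlt
  split_ifs <;> simp

theorem lf_sub_one (V : HeightOneSpectrum (𝓞 K) → WeierstrassCurve (𝓞 K)) (s : ℂ)
    (v : HeightOneSpectrum (𝓞 K)) {B : ℝ} (hB : |(trc V v : ℝ)| ≤ B) :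
    ‖lf V s v - 1‖ ≤ B * (nm v : ℝ) ^ (-s.re) + (nm v : ℝ) ^ (1 - 2 * s.re) := by
  have e : lf V s v - 1 = -((trc V v : ℂ) * ((nm v : ℕ) : ℂ) ^ (-s)) +
      dlt V v * ((nm v : ℕ) : ℂ) ^ (1 - 2 * s) := by
    unfold lf
    ring
  rw [e]
  refine (norm_add_le _ _).trans ?_
  rw [norm_neg, norm_mul, norm_mul, norm_nm_cpow, norm_nm_cpow]
  have e1 : (-s).re = -s.re := by simp
  have e2 : (1 - 2 * s).re = 1 - 2 * s.re := by simp
  have e3 : ‖(trc V v : ℂ)‖ = |(trc V v : ℝ)| := by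
    rw [← Complex.ofReal_intCast, Complex.norm_real, Real.norm_eq_abs]
  rw [e1, e2, e3]
  have h1 : (0 : ℝ) ≤ (nm v : ℝ) ^ (-s.re) := by positivity
  have h2 : (0 : ℝ) ≤ (nm v : ℝ) ^ (1 - 2 * s.re) := by positivity
  have h3 := dlt_le V v
  nlinarith [mul_le_mul_of_nonneg_right hB h1, mul_le_mul_of_nonneg_right h3 h2]

theorem lf_ne_zero (V : HeightOneSpectrum (𝓞 K) → WeierstrassCurve (𝓞 K)) {s : ℂ}
    (hs : 3 / 2 < s.re) (v : HeightOneSpectrum (𝓞 K)) : lf V s v ≠ 0 := by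
  intro h
  have h1 := trc_le V v
  have h1' : |(trc V v : ℝ)| ≤ (nm v : ℝ) := by exact_mod_cast h1
  have h2 := lf_sub_one V s v h1'
  rw [h] at h2
  have hq : (2 : ℝ) ≤ (nm v : ℝ) := by exact_mod_cast two_le_nm v
  have h3 : (nm v : ℝ) * (nm v : ℝ) ^ (-s.re) = (nm v : ℝ) ^ (1 - s.re) := by
    rw [sub_eq_add_neg, Real.rpow_add (by linarith), Real.rpow_one]
  rw [h3] at h2
  have h4 : (nm v : ℝ) ^ (1 - s.re) ≤ (2 : ℝ) ^ (-(1 / 2) : ℝ) := by
    calc (nm v : ℝ) ^ (1 - s.re) ≤ (2 : ℝ) ^ (1 - s.re) :=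
          Real.rpow_le_rpow_of_nonpos (by norm_num) hq (by linarith)
      _ ≤ (2 : ℝ) ^ (-(1 / 2) : ℝ) :=
          Real.rpow_le_rpow_of_exponent_le (by norm_num) (by linarith)
  have h5 : (nm v : ℝ) ^ (1 - 2 * s.re) ≤ 1 / 4 := by
    calc (nm v : ℝ) ^ (1 - 2 * s.re) ≤ (2 : ℝ) ^ (1 - 2 * s.re) :=
          Real.rpow_le_rpow_of_nonpos (by norm_num) hq (by linarith)
      _ ≤ (2 : ℝ) ^ (-(2 : ℝ)) :=
          Real.rpow_le_rpow_of_exponent_le (by norm_num) (by linarith)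
      _ = 1 / 4 := by
          rw [Real.rpow_neg (by norm_num)]
          norm_num
  have h6 : (2 : ℝ) ^ (-(1 / 2) : ℝ) < 3 / 4 := by
    have h7 : ((2 : ℝ) ^ (-(1 / 2) : ℝ)) ^ 2 = 1 / 2 := by
      rw [← Real.rpow_natCast, ← Real.rpow_mul (by norm_num)]
      norm_num
    have h8 : (0 : ℝ) ≤ (2 : ℝ) ^ (-(1 / 2) : ℝ) := by positivity
    nlinarith
  simp at h2
  linarith

/-- Hasse's bound at almost all primes -/
theorem hasse (E : WeierstrassCurve K) (hE : E.IsElliptic)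
    (V : HeightOneSpectrum (𝓞 K) → WeierstrassCurve (𝓞 K)) (hV : ∀ v, IsMinAt E v (V v)) :
    ∀ᶠ v in cofinite, |(trc V v : ℝ)| ≤ 2 * Real.sqrt (nm v) := by
  obtain ⟨l, P, Q, hl, hP, hQ, hD⟩ := exists_integral E hE
  have h6 : (6 : 𝓞 K) ≠ 0 := by norm_num
  filter_upwards [(finite_mem (K := K) h6).compl_mem_cofinite,
    (finite_mem (K := K) hD).compl_mem_cofinite] with v hv1 hv2
  have hv1' : (6 : 𝓞 K) ∉ v.asIdeal := hv1
  have hv2' : P ^ 3 - Q ^ 2 ∉ v.asIdeal := hv2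
  have h1 : IsMinAt (twist E ((1 : 𝓞 K) : K)) v (V v) := by
    have e1 : ((1 : 𝓞 K) : K) = 1 := map_one (algebraMap (𝓞 K) K)
    rw [e1]
    exact isMinAt_one E v _ (hV v)
  have h2 := count_good hl hP hQ h1 hv1' (fun h => v.isPrime.ne_top
    (v.asIdeal.eq_top_iff_one.2 h)) hv2'
  have h3 := csumv_bound (P := P) (Q := Q) hv1' hv2'
  have h4 : (trc V v : ℝ) = -(chi 1 v * csumv P Q v : ℝ) := by
    unfold trc
    rw [h2.2]
    push_cast
    ring
  rw [h4, abs_neg, abs_mul]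
  calc |(chi (1 : 𝓞 K) v : ℝ)| * |(csumv P Q v : ℝ)| ≤ 1 * |(csumv P Q v : ℝ)| :=
        mul_le_mul_of_nonneg_right (chi_abs _ _) (abs_nonneg _)
    _ ≤ 2 * Real.sqrt (nm v) := by rw [one_mul]; exact h3

theorem summable_lf (E : WeierstrassCurve K) (hE : E.IsElliptic)
    (V : HeightOneSpectrum (𝓞 K) → WeierstrassCurve (𝓞 K)) (hV : ∀ v, IsMinAt E v (V v))
    {s : ℂ} (hs : 3 / 2 < s.re) : Summable fun v => lf V s v - 1 := by
  have h1 : Summable fun v : HeightOneSpectrum (𝓞 K) => 3 * (nm v : ℝ) ^ (-(s.re - 1 / 2)) :=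
    (nm_summable (by linarith)).mul_left 3
  refine Summable.of_norm_bounded_eventually h1 ?_
  filter_upwards [hasse E hE V hV] with v hv
  have hq : (2 : ℝ) ≤ (nm v : ℝ) := by exact_mod_cast two_le_nm v
  refine (lf_sub_one V s v hv).trans ?_
  have e1 : Real.sqrt (nm v) * (nm v : ℝ) ^ (-s.re) = (nm v : ℝ) ^ (-(s.re - 1 / 2)) := by
    rw [Real.sqrt_eq_rpow, ← Real.rpow_add (by linarith)]
    congr 1
    ring
  have e2 : (nm v : ℝ) ^ (1 - 2 * s.re) ≤ (nm v : ℝ) ^ (-(s.re - 1 / 2)) :=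
    Real.rpow_le_rpow_of_exponent_le (by linarith) (by linarith)
  rw [mul_assoc, e1]
  linarith

/-- the Euler product converges and is not zero -/
theorem hasProd_lf (E : WeierstrassCurve K) (hE : E.IsElliptic)
    (V : HeightOneSpectrum (𝓞 K) → WeierstrassCurve (𝓞 K)) (hV : ∀ v, IsMinAt E v (V v))
    {s : ℂ} (hs : 3 / 2 < s.re) :
    HasProd (fun v => (lf V s v)⁻¹) (∏' v, (lf V s v)⁻¹) ∧ ∏' v, (lf V s v)⁻¹ ≠ 0 := by
  have h1 := Complex.summable_log_one_add_of_summable (summable_lf E hE V hV hs)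
  have h2 := h1.neg.hasSum.cexp
  have h3 : (cexp ∘ fun v => -Complex.log (1 + (lf V s v - 1))) = fun v => (lf V s v)⁻¹ := by
    funext v
    have h4 : (1 : ℂ) + (lf V s v - 1) = lf V s v := by ring
    rw [Function.comp_apply, h4, Complex.exp_neg, Complex.exp_log (lf_ne_zero V hs v)]
  rw [h3] at h2
  rw [h2.tprod_eq]
  exact ⟨h2, Complex.exp_ne_zero _⟩

/-- the local factors are entire -/
theorem differentiable_lf (V : HeightOneSpectrum (𝓞 K) → WeierstrassCurve (𝓞 K))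
    (v : HeightOneSpectrum (𝓞 K)) : Differentiable ℂ fun s => lf V s v := by
  have h0 : ((nm v : ℕ) : ℂ) ≠ 0 := by exact_mod_cast (nm_pos v).ne'
  unfold lf
  have h1 : Differentiable ℂ fun s : ℂ => ((nm v : ℕ) : ℂ) ^ (-s) :=
    (differentiable_id.neg).const_cpow (Or.inl h0)
  have h2 : Differentiable ℂ fun s : ℂ => ((nm v : ℕ) : ℂ) ^ (1 - 2 * s) :=
    ((differentiable_const _).sub ((differentiable_const _).mul differentiable_id)).const_cpow
      (Or.inl h0)
  exact ((differentiable_const _).sub ((differentiable_const _).mul h1)).add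
    ((differentiable_const _).mul h2)

end

end Pool.Agent.R433.MD
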