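import Mathlib

/-! Permutation characters of finite groups. -/

set_option autoImplicit false

namespace Pool.Agent.R433.MD

/-- the number of fixed points of `g` on `G / H` -/
noncomputable def fx {G : Type} [Group G] (H : Subgroup G) (g : G) : ℤ :=
  (Nat.card {c : G ⧸ H // g • c = c} : ℤ)

section
variable {G : Type} [Group G] [Finite G]

/-- the numbers of fixed points on a finite set -/
theorem fixed_mem (Y : Type) [MulAction G Y] [Finite Y] (A : Submodule ℤ (G → ℤ))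
    (hA : ∀ y : Y, fx (MulAction.stabilizer G y) ∈ A) :
    (fun g : G => (Nat.card {y : Y // g • y = y} : ℤ)) ∈ A := by
  classical
  let Q := MulAction.orbitRel.Quotient G Y
  have : Finite Q := Quotient.finite _
  let _ : Fintype Q := Fintype.ofFinite Q
  let T : (ω : Q) × G ⧸ MulAction.stabilizer G ω.out → Y :=
    fun p => MulAction.ofQuotientStabilizer G p.1.out p.2
  have hTorb : ∀ p, (⟦T p⟧ : Q) = p.1 := by
    intro p
    rw [← Quotient.out_eq p.1]
    exact Quotient.sound (MulAction.ofQuotientStabilizer_mem_orbit G _ _)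
  have hT : Function.Bijective T := by
    constructor
    · rintro ⟨ω, c⟩ ⟨ω', c'⟩ h
      obtain rfl : ω = ω' :=
        (hTorb ⟨ω, c⟩).symm.trans ((congrArg (fun y => (⟦y⟧ : Q)) h).trans (hTorb ⟨ω', c'⟩))
      exact congrArg _ (MulAction.injective_ofQuotientStabilizer G _ h)
    · intro y
      have h1 : MulAction.orbitRel G Y y (Quotient.out (⟦y⟧ : Q)) :=
        Quotient.exact (Quotient.out_eq (⟦y⟧ : Q)).symm
      obtain ⟨x, hx⟩ := h1
      exact ⟨⟨(⟦y⟧ : Q), (x : G ⧸ MulAction.stabilizer G (Quotient.out (⟦y⟧ : Q)))⟩, hx⟩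
  have hcount : ∀ g : G, (Nat.card {y : Y // g • y = y} : ℤ) =
      ∑ ω : Q, fx (MulAction.stabilizer G ω.out) g := by
    intro g
    have e1 : {y : Y // g • y = y} ≃ (ω : Q) × {c : G ⧸ MulAction.stabilizer G ω.out // g • c = c} :=
      (Equiv.subtypeEquiv (Equiv.ofBijective T hT) (p := fun p => g • p.2 = p.2) (fun p => by
        rw [Equiv.ofBijective_apply]
        change g • p.2 = p.2 ↔ g • MulAction.ofQuotientStabilizer G p.1.out p.2 =
          MulAction.ofQuotientStabilizer G p.1.out p.2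
        rw [← MulAction.ofQuotientStabilizer_smul]
        exact (MulAction.injective_ofQuotientStabilizer G _).eq_iff.symm)).symm.trans
      { toFun := fun p => ⟨p.1.1, p.1.2, p.2⟩
        invFun := fun p => ⟨⟨p.1, p.2.1⟩, p.2.2⟩
        left_inv := fun _ => rfl
        right_inv := fun _ => rfl }
    rw [Nat.card_congr e1, Nat.card_sigma]
    push_cast
    rfl
  have h2 : (fun g : G => (Nat.card {y : Y // g • y = y} : ℤ)) =
      ∑ ω : Q, fx (MulAction.stabilizer G ω.out) := by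
    funext g
    rw [hcount, Finset.sum_apply]
  rw [h2]
  exact Submodule.sum_mem _ fun ω _ => hA _

/-- stabilizers of cosets -/
theorem stab_coset {G : Type} [Group G] (H : Subgroup G) (x : G) :
    MulAction.stabilizer G (x : G ⧸ H) = H.map (MulAut.conj x).toMonoidHom := by
  ext y
  rw [MulAction.mem_stabilizer_iff, Subgroup.mem_map]
  constructor
  · intro h
    have h1 : ((y * x : G) : G ⧸ H) = x := h
    rw [QuotientGroup.eq] at h1
    refine ⟨x⁻¹ * y * x, ?_, ?_⟩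
    · have h2 := H.inv_mem h1
      have e : x⁻¹ * y * x = ((y * x)⁻¹ * x)⁻¹ := by group
      rw [e]
      exact h2
    · simp only [MulEquiv.toMonoidHom_eq_coe, MonoidHom.coe_coe, MulAut.conj_apply]
      group
  · rintro ⟨h, hh, rfl⟩
    simp only [MulEquiv.toMonoidHom_eq_coe, MonoidHom.coe_coe, MulAut.conj_apply]
    change ((x * h * x⁻¹ * x : G) : G ⧸ H) = x
    rw [QuotientGroup.eq]
    have e : (x * h * x⁻¹ * x)⁻¹ * x = h⁻¹ := by group
    rw [e]
    exact H.inv_mem hh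

/-- products -/
theorem fx_mul_mem (𝓗 : Set (Subgroup G)) (hinf : ∀ H ∈ 𝓗, ∀ H' ∈ 𝓗, H ⊓ H' ∈ 𝓗)
    (hconj : ∀ H ∈ 𝓗, ∀ x : G, H.map (MulAut.conj x).toMonoidHom ∈ 𝓗) {H H' : Subgroup G}
    (hH : H ∈ 𝓗) (hH' : H' ∈ 𝓗) :
    fx H * fx H' ∈ Submodule.span ℤ (Set.range fun H : 𝓗 => fx H.1) := by
  have h1 := fixed_mem (G := G) ((G ⧸ H) × (G ⧸ H'))
    (Submodule.span ℤ (Set.range fun H : 𝓗 => fx H.1)) (by
    rintro ⟨c, c'⟩
    obtain ⟨x, rfl⟩ := QuotientGroup.mk_surjective c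
    obtain ⟨x', rfl⟩ := QuotientGroup.mk_surjective c'
    have e : MulAction.stabilizer G ((x : G ⧸ H), (x' : G ⧸ H')) =
        H.map (MulAut.conj x).toMonoidHom ⊓ H'.map (MulAut.conj x').toMonoidHom := by
      rw [← stab_coset, ← stab_coset]
      ext y
      rw [Subgroup.mem_inf, MulAction.mem_stabilizer_iff, MulAction.mem_stabilizer_iff,
        MulAction.mem_stabilizer_iff, Prod.smul_mk, Prod.mk.injEq]
    rw [e]
    exact Submodule.subset_span ⟨⟨_, hinf _ (hconj _ hH x) _ (hconj _ hH' x')⟩, rfl⟩)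
  have h2 : fx H * fx H' =
      fun g : G => (Nat.card {y : (G ⧸ H) × (G ⧸ H') // g • y = y} : ℤ) := by
    funext g
    rw [Pi.mul_apply, fx, fx, ← Nat.cast_mul, ← Nat.card_prod]
    congr 1
    refine Nat.card_congr
      { toFun := fun p => ⟨(p.1.1, p.2.1), Prod.ext p.1.2 p.2.2⟩
        invFun := fun p => (⟨p.1.1, congrArg Prod.fst p.2⟩, ⟨p.1.2, congrArg Prod.snd p.2⟩)
        left_inv := fun _ => rfl
        right_inv := fun _ => rfl }
  rw [h2]
  exact h1

end

/-- subrings of `ℤ ^ X` -/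
theorem unit_mem {X : Type} [Finite X] (A : Submodule ℤ (X → ℤ))
    (hmul : ∀ a ∈ A, ∀ b ∈ A, a * b ∈ A) (P : Set ℕ) (h0 : ∀ x, ∃ a ∈ A, a x ≠ 0)
    (hP : ∀ x, ∀ p ∈ P, p.Prime → ∃ a ∈ A, ¬ (p : ℤ) ∣ a x) :
    ∃ m : ℕ, m ≠ 0 ∧ (∀ p ∈ P, p.Prime → ¬ p ∣ m) ∧ (fun _ => (m : ℤ)) ∈ A := by
  classical
  let _ : Fintype X := Fintype.ofFinite X
  -- the value groups
  have h1 : ∀ x, ∃ a ∈ A, a x ≠ 0 ∧ ∀ p ∈ P, p.Prime → ¬ (p : ℤ) ∣ a x := by
    intro x
    let ev : (X → ℤ) →+ ℤ := Pi.evalAddMonoidHom (fun _ => ℤ) x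
    obtain ⟨d, hd⟩ := Int.subgroup_cyclic (A.toAddSubgroup.map ev)
    rw [← AddSubgroup.zmultiples_eq_closure] at hd
    have hd1 : d ∈ A.toAddSubgroup.map ev := by
      rw [hd]
      exact AddSubgroup.mem_zmultiples d
    obtain ⟨a, ha, had⟩ := hd1
    have hdvd : ∀ b ∈ A, d ∣ b x := by
      intro b hb
      have h2 : b x ∈ A.toAddSubgroup.map ev := ⟨b, hb, rfl⟩
      rw [hd, Int.mem_zmultiples_iff] at h2
      exact h2
    have had' : a x = d := had
    refine ⟨a, ha, ?_, fun p hp hpp h => ?_⟩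
    · obtain ⟨b, hb, hb0⟩ := h0 x
      intro h
      rw [had'] at h
      have h3 := hdvd b hb
      rw [h, zero_dvd_iff] at h3
      exact hb0 h3
    · obtain ⟨b, hb, hb0⟩ := hP x p hp hpp
      rw [had'] at h
      exact hb0 (h.trans (hdvd b hb))
  choose a haA ha0 haP using h1
  have h2 : ∀ S : Finset X, (∏ x ∈ S, ((fun _ => a x x) - a x)) - (fun _ => ∏ x ∈ S, a x x) ∈ A := by
    intro S
    induction S using Finset.induction_on with
    | empty =>
      have e : (∏ x ∈ (∅ : Finset X), ((fun _ => a x x) - a x)) -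
          (fun _ => ∏ x ∈ (∅ : Finset X), a x x) = (0 : X → ℤ) := by
        funext y
        simp
      rw [e]
      exact A.zero_mem
    | insert y S hy ih =>
      set B : X → ℤ := (∏ x ∈ S, ((fun _ => a x x) - a x)) - (fun _ => ∏ x ∈ S, a x x) with hB
      have e : (∏ x ∈ insert y S, ((fun _ => a x x) - a x)) - (fun _ => ∏ x ∈ insert y S, a x x) =
          (a y y) • B - (a y) * B - (∏ x ∈ S, a x x) • (a y) := by
        rw [Finset.prod_insert hy, hB]
        funext z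
        rw [Finset.prod_insert hy]
        simp only [Pi.sub_apply, Pi.mul_apply, Pi.smul_apply, smul_eq_mul, Finset.prod_apply]
        ring
      rw [e]
      exact A.sub_mem (A.sub_mem (A.smul_mem _ ih) (hmul _ (haA y) _ ih)) (A.smul_mem _ (haA y))
  have h3 : (∏ x, ((fun _ => a x x) - a x)) = (0 : X → ℤ) := by
    funext y
    rw [Finset.prod_apply, Pi.zero_apply]
    refine Finset.prod_eq_zero (Finset.mem_univ y) ?_
    rw [Pi.sub_apply, sub_self]
  have h4 := h2 Finset.univ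
  rw [h3, zero_sub] at h4
  refine ⟨(∏ x, a x x).natAbs, ?_, fun p hp hpp h => ?_, ?_⟩
  · rw [Int.natAbs_ne_zero]
    exact Finset.prod_ne_zero_iff.2 fun x _ => ha0 x
  · have h5 : (p : ℤ) ∣ ∏ x, a x x := Int.natCast_dvd.2 h
    obtain ⟨x, -, hx⟩ := (Nat.prime_iff_prime_int.1 hpp).exists_mem_finset_dvd h5
    exact haP x p hp hpp hx
  · rcases abs_cases (∏ x, a x x) with h | h
    · have e : (fun _ : X => ((∏ x, a x x).natAbs : ℤ)) = -(-(fun _ => ∏ x, a x x)) := by
        funext y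
        rw [Pi.neg_apply, Pi.neg_apply, neg_neg, Int.natCast_natAbs, h.1]
      rw [e]
      exact A.neg_mem h4
    · have e : (fun _ : X => ((∏ x, a x x).natAbs : ℤ)) = -(fun _ => ∏ x, a x x) := by
        funext y
        rw [Pi.neg_apply, Int.natCast_natAbs, h.1]
      rw [e]
      exact h4

/-- **Banaschewski, Solomon.** -/
theorem perm_unit {G : Type} [Group G] [Finite G] (𝓗 : Set (Subgroup G))
    (hinf : ∀ H ∈ 𝓗, ∀ H' ∈ 𝓗, H ⊓ H' ∈ 𝓗)
    (hconj : ∀ H ∈ 𝓗, ∀ x : G, H.map (MulAut.conj x).toMonoidHom ∈ 𝓗) (P : Set ℕ)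
    (h0 : ∀ g, ∃ H ∈ 𝓗, fx H g ≠ 0)
    (hP : ∀ g, ∀ p ∈ P, p.Prime → ∃ H ∈ 𝓗, ¬ (p : ℤ) ∣ fx H g) :
    ∃ (m : ℕ) (n : Subgroup G → ℤ), m ≠ 0 ∧ (∀ p ∈ P, p.Prime → ¬ p ∣ m) ∧
      (∀ H, H ∉ 𝓗 → n H = 0) ∧ ∀ g, ∑ᶠ H, n H * fx H g = m := by
  classical
  obtain ⟨m, hm0, hmP, hmA⟩ := unit_mem (Submodule.span ℤ (Set.range fun H : 𝓗 => fx H.1))
    (by
      intro a ha b hb
      induction ha using Submodule.span_induction with
      | mem x hx =>
        obtain ⟨H, rfl⟩ := hx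
        induction hb using Submodule.span_induction with
        | mem y hy =>
          obtain ⟨H', rfl⟩ := hy
          exact fx_mul_mem 𝓗 hinf hconj H.2 H'.2
        | zero => rw [mul_zero]; exact Submodule.zero_mem _
        | add y z _ _ hy hz => rw [mul_add]; exact Submodule.add_mem _ hy hz
        | smul c y _ hy => rw [mul_smul_comm]; exact Submodule.smul_mem _ _ hy
      | zero => rw [zero_mul]; exact Submodule.zero_mem _
      | add y z _ _ hy hz => rw [add_mul]; exact Submodule.add_mem _ hy hz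
      | smul c y _ hy => rw [smul_mul_assoc]; exact Submodule.smul_mem _ _ hy) P
    (fun g => by
      obtain ⟨H, hH, h⟩ := h0 g
      exact ⟨fx H, Submodule.subset_span ⟨⟨H, hH⟩, rfl⟩, h⟩)
    (fun g p hp hpp => by
      obtain ⟨H, hH, h⟩ := hP g p hp hpp
      exact ⟨fx H, Submodule.subset_span ⟨⟨H, hH⟩, rfl⟩, h⟩)
  have hfin : Finite (Subgroup G) := inferInstance
  let _ : Fintype (Subgroup G) := Fintype.ofFinite _
  let _ : Fintype 𝓗 := Fintype.ofFinite _
  rw [Submodule.mem_span_range_iff_exists_fun] at hmA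
  obtain ⟨c, hc⟩ := hmA
  refine ⟨m, fun H => if h : H ∈ 𝓗 then c ⟨H, h⟩ else 0, hm0, hmP, fun H hH => dif_neg hH,
    fun g => ?_⟩
  rw [finsum_eq_sum_of_fintype]
  have h1 := congrFun hc g
  rw [Finset.sum_apply] at h1
  rw [← h1]
  have h2 : ∀ i : 𝓗, (c i • fx i.1) g =
      (if h : i.1 ∈ 𝓗 then c ⟨i.1, h⟩ else 0) * fx i.1 g := by
    intro i
    rw [dif_pos i.2, Pi.smul_apply, smul_eq_mul]
  rw [Finset.sum_congr rfl fun i _ => h2 i]
  rw [← Finset.sum_subtype (Finset.univ.filter (· ∈ 𝓗)) (fun H => by simp)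
    (fun H => (if h : H ∈ 𝓗 then c ⟨H, h⟩ else 0) * fx H g)]
  refine (Finset.sum_filter_of_ne fun H _ hne => ?_).symm
  by_contra hH
  exact hne (by simp only [dif_neg hH, zero_mul])

end Pool.Agent.R433.MD
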