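import Pool.Agent.H46.Lib.R_seed8.R433.MD.FinField

/-! Products determined by sums over divisors; finite fields. -/

set_option autoImplicit false

namespace Pool.Agent.R433.MD

open Finset

theorem comb {ι : Type*} [Fintype ι] (T : ι → Type*) [∀ i, Fintype (T i)] (d : ∀ i, T i → ℕ)
    (hd : ∀ i t, 0 < d i t) (a b : ι → ℕ)
    (h : ∀ m, 0 < m → ∑ i, a i * ∑ t, (if d i t ∣ m then d i t else 0) =
      ∑ i, b i * ∑ t, (if d i t ∣ m then d i t else 0)) (g : ℕ → ℂ) :
    ∏ i, (∏ t, g (d i t)) ^ a i = ∏ i, (∏ t, g (d i t)) ^ b i := by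
  classical
  let c : ι → ℕ → ℕ := fun i f => (univ.filter fun t => d i t = f).card
  -- the divisor sums
  have h1 : ∀ (e : ι → ℕ) (m : ℕ), 0 < m →
      ∑ i, e i * ∑ t, (if d i t ∣ m then d i t else 0) =
        ∑ f ∈ m.divisors, f * ∑ i, e i * c i f := by
    intro e m hm
    have h2 : ∀ i, ∑ t, (if d i t ∣ m then d i t else 0) = ∑ f ∈ m.divisors, f * c i f := by
      intro i
      have h3 : ∀ t, (if d i t ∣ m then d i t else 0) =
          ∑ f ∈ m.divisors, if d i t = f then f else 0 := by
        intro t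
        rw [sum_ite_eq]
        simp only [Nat.mem_divisors]
        by_cases h4 : d i t ∣ m
        · rw [if_pos h4, if_pos ⟨h4, hm.ne'⟩]
        · rw [if_neg h4, if_neg (fun h5 => h4 h5.1)]
      simp_rw [h3]
      rw [sum_comm]
      refine sum_congr rfl fun f _ => ?_
      rw [← sum_filter, sum_const, smul_eq_mul, mul_comm]
    simp_rw [h2, mul_sum]
    rw [sum_comm]
    refine sum_congr rfl fun f _ => sum_congr rfl fun i _ => ?_
    ring
  have h5 := eq_of_divisor_sums (A := fun f => ∑ i, a i * c i f) (B := fun f => ∑ i, b i * c i f)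
    (fun k hk => by
      have := h k hk
      rwa [h1 a k hk, h1 b k hk] at this)
  -- the products
  let S : Finset ℕ := univ.biUnion fun i => univ.image (d i)
  have hS : ∀ i t, d i t ∈ S := fun i t =>
    mem_biUnion.2 ⟨i, mem_univ _, mem_image.2 ⟨t, mem_univ _, rfl⟩⟩
  have h6 : ∀ e : ι → ℕ, ∏ i, (∏ t, g (d i t)) ^ e i = ∏ f ∈ S, g f ^ ∑ i, e i * c i f := by
    intro e
    have h7 : ∀ i, ∏ t, g (d i t) = ∏ f ∈ S, g f ^ c i f := by
      intro i
      rw [← prod_fiberwise_of_maps_to (s := univ) (t := S) (g := d i) (fun t _ => hS i t)]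
      refine prod_congr rfl fun f _ => ?_
      rw [prod_congr rfl (g := fun _ => g f) (fun t ht => by rw [(mem_filter.1 ht).2]), prod_const]
    simp_rw [h7, ← prod_pow]
    rw [prod_comm]
    refine prod_congr rfl fun f _ => ?_
    rw [← prod_pow_eq_pow_sum]
    refine prod_congr rfl fun i _ => ?_
    rw [← pow_mul, mul_comm]
  rw [h6 a, h6 b]
  refine prod_congr rfl fun f hf => ?_
  obtain ⟨i, -, hi⟩ := mem_biUnion.1 hf
  obtain ⟨t, -, ht⟩ := mem_image.1 hi
  rw [h5 f (ht ▸ hd i t)]

/-- finite fields of the same degree are isomorphic -/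
theorem iso_of_finrank {k l l' : Type} [Field k] [Finite k] [Field l] [Field l'] [Algebra k l]
    [Algebra k l'] (h0 : 0 < Module.finrank k l) (h : Module.finrank k l = Module.finrank k l') :
    Nonempty (l ≃ₐ[k] l') := by
  obtain ⟨p, hp⟩ := CharP.exists k
  have hpp : Fact p.Prime := ⟨CharP.char_is_prime k p⟩
  have : NeZero (Module.finrank k l) := ⟨h0.ne'⟩
  exact ⟨(FiniteField.algEquivExtension k p _ l rfl).trans
    (FiniteField.algEquivExtension k p _ l' h.symm).symm⟩

theorem exists_ext (k : Type) [Field k] [Finite k] {n : ℕ} (hn : 0 < n) :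
    ∃ (l : Type) (_ : Field l) (_ : Finite l) (_ : Algebra k l), Module.finrank k l = n := by
  obtain ⟨p, hp⟩ := CharP.exists k
  have hpp : Fact p.Prime := ⟨CharP.char_is_prime k p⟩
  have : NeZero n := ⟨hn.ne'⟩
  exact ⟨FiniteField.Extension k p n, inferInstance, inferInstance, inferInstance,
    FiniteField.finrank_extension k p n⟩

theorem card_algHom {k l m : Type} [Field k] [Field l] [Field m] [Finite m] [Algebra k l]
    [Algebra k m] :
    Nat.card (l →ₐ[k] m) =
      if Module.finrank k l ∣ Module.finrank k m then Module.finrank k l else 0 := by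
  split_ifs with h
  · exact FiniteField.natCard_algHom_of_finrank_dvd h
  · have : IsEmpty (l →ₐ[k] m) := by
      by_contra h1
      rw [not_isEmpty_iff] at h1
      exact h (FiniteField.nonempty_algHom_iff_finrank_dvd.1 h1)
    exact Nat.card_of_isEmpty

end Pool.Agent.R433.MD
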