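import Pool.Agent.H46.Lib.R_seed8.R433.MD.Step

/-! Descent of the meromorphic continuation. -/

set_option autoImplicit false

namespace Pool.Agent.R433.MD

open NumberField IsDedekindDomain
open Pool.Agent.H341R2.EC

/-- `L(E/K, s)` -/
noncomputable def LL {K : Type} [Field K] [NumberField K]
    (V : HeightOneSpectrum (𝓞 K) → WeierstrassCurve (𝓞 K)) (s : ℂ) : ℂ := ∏' v, (lf V s v)⁻¹

/-- `L(E/K, s) ^ m` has a meromorphic continuation to `U`. -/
def Cont {K : Type} [Field K] [NumberField K] (E : WeierstrassCurve K) (U : Set ℂ) (m : ℕ) : Prop :=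
  ∃ V : HeightOneSpectrum (𝓞 K) → WeierstrassCurve (𝓞 K), (∀ v, IsMinAt E v (V v)) ∧
    ∃ Λ : ℂ → ℂ, MeromorphicOn Λ U ∧ ∀ s : ℂ, 3 / 2 < s.re → Λ s = LL V s ^ m

section
variable {K : Type} [Field K] [NumberField K]

theorem LL_ne_zero {E : WeierstrassCurve K} (hE : E.IsElliptic)
    {V : HeightOneSpectrum (𝓞 K) → WeierstrassCurve (𝓞 K)} (hV : ∀ v, IsMinAt E v (V v))
    {s : ℂ} (hs : 3 / 2 < s.re) : LL V s ≠ 0 := (hasProd_lf E hE V hV hs).2

/-- descent along the relation of a prime number -/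
theorem cont_step {p : ℕ} (Z : Option (Fin p) → Ext K) (Y : Ext K) {D : 𝓞 K} (hD0 : D ≠ 0)
    (hD : ∀ (k : Type) [Field k] [Finite k] (φ : 𝓞 K →+* k), φ D ≠ 0 →
      ∑ j, nh (Z j).F φ = nh Y.F φ + p)
    (E : WeierstrassCurve K) (hE : E.IsElliptic) (U : Set ℂ) (n : ℕ)
    (hZ : ∀ j, Cont (E.map (algebraMap K (Z j).F)) U n)
    (hY : Cont (E.map (algebraMap K Y.F)) U n) : Cont E U (p * n) := by
  classical
  obtain ⟨V0, hV0⟩ := exists_minimal E hE
  choose VZ hVZ ΛZ hΛZ hZL using hZ
  obtain ⟨VY, hVY, ΛY, hΛY, hYL⟩ := hY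
  -- the family
  let X : Option (Option (Option (Fin p))) → Ext K := fun i =>
    match i with
    | none => Ext.self K
    | some none => Y
    | some (some j) => Z j
  let a : Option (Option (Option (Fin p))) → ℕ := fun i =>
    match i with
    | none => 0
    | some none => 0
    | some (some _) => 1
  let b : Option (Option (Option (Fin p))) → ℕ := fun i =>
    match i with
    | none => p
    | some none => 1
    | some (some _) => 0
  let V : ∀ i, HeightOneSpectrum (𝓞 (X i).F) → WeierstrassCurve (𝓞 (X i).F) := fun i =>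
    match i with
    | none => V0
    | some none => VY
    | some (some j) => VZ j
  have hV : ∀ i w, IsMinAt (E.map (algebraMap K (X i).F)) w (V i w) := by
    rintro (_ | _ | j)
    · intro w
      have e : E.map (algebraMap K (Ext.self K).F) = E := E.map_id
      change IsMinAt (E.map (algebraMap K (Ext.self K).F)) w (V0 w)
      rw [e]
      exact hV0 w
    · exact hVY
    · exact hVZ j
  obtain ⟨R, hR, hRL⟩ := relation (fun i => (X i).F) a b hD0 (by
    intro k _ _ φ hφ
    simp only [Fintype.sum_option]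
    have h1 := hD k φ hφ
    have h2 := (nh_self K φ).2
    have h3 : nh (X none).F φ = 1 := h2
    simp only [a, b, zero_mul, zero_add, one_mul, h3, mul_one]
    rw [Fintype.sum_option] at h1
    change nh (Z none).F φ + ∑ i, nh (Z (some i)).F φ = p + (nh Y.F φ + ∑ _x : Fin p, 0)
    rw [h1, Finset.sum_const_zero, add_zero, add_comm]) E hE V hV
  refine ⟨V0, hV0, fun s => (∏ j, ΛZ j s) / (R s ^ n * ΛY s), ?_, ?_⟩
  · have h1 : MeromorphicOn (fun s => ∏ j, ΛZ j s) U :=
      MeromorphicOn.fun_prod fun j _ => hΛZ j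
    have h2 : MeromorphicOn R U := fun x _ => hR x trivial
    exact h1.fun_div ((h2.fun_pow n).fun_mul hΛY)
  · intro s hs
    obtain ⟨h1, h2⟩ := hRL s hs
    simp only [Fintype.prod_option] at h2
    have h3 : LL (VZ none) s * ∏ j, LL (VZ (some j)) s = R s * (LL V0 s ^ p * LL VY s) := by
      have e : ∀ j : Fin p, (∏' w, (lf (V (some (some (some j)))) s w)⁻¹) ^
          a (some (some (some j))) = LL (VZ (some j)) s := fun j => pow_one _
      have e' : ∀ j : Fin p, (∏' w, (lf (V (some (some (some j)))) s w)⁻¹) ^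
          b (some (some (some j))) = 1 := fun j => pow_zero _
      simp only [e, e'] at h2
      have h4 : (LL V0 s) ^ 0 * ((LL VY s) ^ 0 * (LL (VZ none) s ^ 1 *
          ∏ j, LL (VZ (some j)) s)) = R s * ((LL V0 s) ^ p * ((LL VY s) ^ 1 *
          (LL (VZ none) s ^ 0 * ∏ _j : Fin p, (1 : ℂ)))) := h2
      simp only [pow_zero, pow_one, one_mul, Finset.prod_const_one, mul_one] at h4
      rw [h4]
    simp only [Fintype.prod_option, hYL s hs, fun j => hZL j s hs]
    rw [Finset.prod_pow, ← mul_pow, h3]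
    have h5 : LL VY s ≠ 0 := LL_ne_zero inferInstance hVY hs
    rw [← mul_pow, div_eq_iff (pow_ne_zero _ (mul_ne_zero h1 h5)), pow_mul, ← mul_pow]
    congr 1
    ring

theorem map_self (E : WeierstrassCurve K) : E.map (algebraMap K (Ext.self K).F) = E := E.map_id

end

/-- descent for powers -/
theorem descent_pow (n : ℕ) : 0 < n → ∀ (K : Type) [Field K] [NumberField K],
    ∃ (ι : Type) (_ : Finite ι) (Z : ι → Ext K),
      (∀ i, n ∣ Module.finrank K (Z i).F ∧ Module.finrank K (Z i).F ∣ n ^ 2) ∧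
      ∀ (E : WeierstrassCurve K), E.IsElliptic → ∀ U : Set ℂ,
        (∀ i, Cont (E.map (algebraMap K (Z i).F)) U 1) → Cont E U n := by
  induction n using Nat.strong_induction_on with
  | _ n ih =>
    intro hn K _ _
    rcases Nat.eq_or_lt_of_le (Nat.succ_le_of_lt hn) with h1 | h1
    · subst h1
      refine ⟨Unit, inferInstance, fun _ => Ext.self K, fun _ => ?_, fun E _ U h => ?_⟩
      · have e : Module.finrank K (Ext.self K).F = 1 := Module.finrank_self K
        rw [e]
        exact ⟨dvd_rfl, by norm_num⟩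
      · have h2 := h ()
        rw [map_self] at h2
        exact h2
    · -- a prime factor
      obtain ⟨p, hp, m, rfl⟩ := Nat.exists_prime_and_dvd (n := n) (by omega)
      have hm : 0 < m := Nat.pos_of_ne_zero fun h => by simp [h] at hn
      have hlt : m < p * m := by
        have := hp.two_le
        nlinarith
      obtain ⟨Z, Y, D, hZ, hY, hD0, hD⟩ := base_step K hp
      choose ιZ hfZ XZ hXZ hcZ using fun j => ih m hlt hm (Z j).F
      obtain ⟨ιY, hfY, XY, hXY, hcY⟩ := ih m hlt hm Y.F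
      refine ⟨(Σ j, ιZ j) ⊕ ιY, inferInstance,
        Sum.elim (fun q => (Z q.1).restrict (XZ q.1 q.2)) (fun i => Y.restrict (XY i)),
        ?_, fun E hE U h => ?_⟩
      · rintro (⟨j, i⟩ | i)
        · have e : Module.finrank K ((Z j).restrict (XZ j i)).F =
              p * Module.finrank (Z j).F (XZ j i).F := by rw [finrank_restrict, hZ]
          rw [Sum.elim_inl, e]
          refine ⟨mul_dvd_mul_left p (hXZ j i).1, ?_⟩
          rw [mul_pow]
          exact mul_dvd_mul (dvd_pow_self p two_ne_zero) (hXZ j i).2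
        · have e : Module.finrank K (Y.restrict (XY i)).F =
              p * p * Module.finrank Y.F (XY i).F := by rw [finrank_restrict, hY]
          rw [Sum.elim_inr, e]
          refine ⟨?_, ?_⟩
          · rw [mul_assoc]
            exact mul_dvd_mul_left p (Dvd.dvd.mul_left (hXY i).1 p)
          · rw [mul_pow, sq p]
            exact mul_dvd_mul_left _ (hXY i).2
      · refine cont_step Z Y hD0 hD E hE U m (fun j => ?_) ?_
        · refine hcZ j (E.map (algebraMap K (Z j).F)) inferInstance U fun i => ?_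
          have h2 := h (Sum.inl ⟨j, i⟩)
          rw [Sum.elim_inl, map_restrict] at h2
          exact h2
        · refine hcY (E.map (algebraMap K Y.F)) inferInstance U fun i => ?_
          have h2 := h (Sum.inr i)
          rw [Sum.elim_inr, map_restrict] at h2
          exact h2

/-- the Euler products of two systems of minimal models differ by finitely many factors -/
theorem models_unique {K : Type} [Field K] [NumberField K] {E : WeierstrassCurve K}
    (hE : E.IsElliptic) (V V' : HeightOneSpectrum (𝓞 K) → WeierstrassCurve (𝓞 K))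
    (hV : ∀ v, IsMinAt E v (V v)) (hV' : ∀ v, IsMinAt E v (V' v)) :
    ∃ R : ℂ → ℂ, MeromorphicOn R Set.univ ∧
      ∀ s : ℂ, 3 / 2 < s.re → R s ≠ 0 ∧ LL V s = R s * LL V' s := by
  have e : E.map (algebraMap K K) = E := E.map_id
  obtain ⟨R, hR, hRL⟩ := relation (ι := Bool) (fun _ => K) (fun i => if i then 1 else 0)
    (fun i => if i then 0 else 1) (D := (1 : 𝓞 K)) one_ne_zero (by
      intro k _ _ φ _
      simp) E hE (fun i => if i then V else V') (by
      rintro (_ | _) w
      · rw [e]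
        exact hV' w
      · rw [e]
        exact hV w)
  refine ⟨R, hR, fun s hs => ?_⟩
  obtain ⟨h1, h2⟩ := hRL s hs
  refine ⟨h1, ?_⟩
  simp only [Fintype.prod_bool, if_true, Bool.false_eq_true, if_false, pow_one, pow_zero, mul_one,
    one_mul] at h2
  exact h2

theorem cont_gcd {K : Type} [Field K] [NumberField K] {E : WeierstrassCurve K} (hE : E.IsElliptic)
    {U : Set ℂ} {m n : ℕ} (hm : Cont E U m) (hn : Cont E U n) : Cont E U (Nat.gcd m n) := by
  obtain ⟨V, hV, Λ, hΛ, hL⟩ := hm
  obtain ⟨V', hV', Λ', hΛ', hL'⟩ := hn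
  obtain ⟨R, hR, hRL⟩ := models_unique hE V V' hV hV'
  refine ⟨V, hV, fun s => Λ s ^ (m.gcdA n) * (R s ^ n * Λ' s) ^ (m.gcdB n), ?_, ?_⟩
  · have h2 : MeromorphicOn R U := fun x _ => hR x trivial
    exact (hΛ.fun_zpow _).fun_mul (((h2.fun_pow n).fun_mul hΛ').fun_zpow _)
  · intro s hs
    obtain ⟨h1, h2⟩ := hRL s hs
    have h3 : LL V s ≠ 0 := LL_ne_zero hE hV hs
    simp only
    rw [hL s hs, hL' s hs, ← mul_pow, ← h2, ← zpow_natCast, ← zpow_natCast, ← zpow_mul,
      ← zpow_mul, ← zpow_add₀ h3, ← Nat.gcd_eq_gcd_ab, zpow_natCast]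

/-- **Descent.** -/
theorem descent_two {m n : ℕ} (hm : 0 < m) (hn : 0 < n) (K : Type) [Field K] [NumberField K] :
    ∃ (r : ℕ) (Z : Fin r → Ext K),
      (∀ i, (m ∣ Module.finrank K (Z i).F ∧ Module.finrank K (Z i).F ∣ m ^ 2) ∨
        (n ∣ Module.finrank K (Z i).F ∧ Module.finrank K (Z i).F ∣ n ^ 2)) ∧
      ∀ (E : WeierstrassCurve K), E.IsElliptic → ∀ U : Set ℂ,
        (∀ i, Cont (E.map (algebraMap K (Z i).F)) U 1) → Cont E U (Nat.gcd m n) := by
  obtain ⟨ι1, h1, Z1, hZ1, hC1⟩ := descent_pow m hm K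
  obtain ⟨ι2, h2, Z2, hZ2, hC2⟩ := descent_pow n hn K
  obtain ⟨r, ⟨e⟩⟩ := Finite.exists_equiv_fin (ι1 ⊕ ι2)
  have key : ∀ x : ι1 ⊕ ι2, (m ∣ Module.finrank K (Sum.elim Z1 Z2 x).F ∧
      Module.finrank K (Sum.elim Z1 Z2 x).F ∣ m ^ 2) ∨
      (n ∣ Module.finrank K (Sum.elim Z1 Z2 x).F ∧
      Module.finrank K (Sum.elim Z1 Z2 x).F ∣ n ^ 2) := by
    rintro (j | j)
    · exact Or.inl (hZ1 j)
    · exact Or.inr (hZ2 j)
  refine ⟨r, fun i => Sum.elim Z1 Z2 (e.symm i), fun i => key (e.symm i), fun E hE U h => ?_⟩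
  have h' : ∀ x : ι1 ⊕ ι2, Cont (E.map (algebraMap K (Sum.elim Z1 Z2 x).F)) U 1 := by
    intro x
    obtain ⟨i, rfl⟩ := e.symm.surjective x
    exact h i
  exact cont_gcd hE (hC1 E hE U fun j => h' (Sum.inl j)) (hC2 E hE U fun j => h' (Sum.inr j))

end Pool.Agent.R433.MD
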