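import Pool.Agent.H46.Lib.R_seed8.R433.MD.Relation

/-! Existence of minimal models and of pure extensions. -/

set_option autoImplicit false

namespace Pool.Agent.R433.MD

open NumberField IsDedekindDomain Polynomial
open Pool.Agent.H341R2.EC

section
variable {K : Type} [Field K] [NumberField K]

theorem model_ne_zero {E : WeierstrassCurve K} (hE : E.IsElliptic) {W : WeierstrassCurve (𝓞 K)}
    (hW : IsModel E W) : W.Δ ≠ 0 := by
  obtain ⟨C, hC⟩ := hW
  intro h
  have h1 := congrArg WeierstrassCurve.Δ hC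
  rw [WeierstrassCurve.variableChange_Δ, WeierstrassCurve.map_Δ, h, map_zero] at h1
  have h2 : E.Δ ≠ 0 := E.isUnit_Δ.ne_zero
  exact mul_ne_zero (pow_ne_zero _ (Units.ne_zero _)) h2 h1

/-- minimal models exist -/
theorem exists_minimal (E : WeierstrassCurve K) (hE : E.IsElliptic) :
    ∃ V : HeightOneSpectrum (𝓞 K) → WeierstrassCurve (𝓞 K), ∀ v, IsMinAt E v (V v) := by
  classical
  have h : ∀ v : HeightOneSpectrum (𝓞 K), ∃ W : WeierstrassCurve (𝓞 K), IsMinAt E v W := by
    intro v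
    have hex : ∃ n : ℕ, ∃ W : WeierstrassCurve (𝓞 K), IsModel E W ∧ W.Δ ∉ v.asIdeal ^ n := by
      obtain ⟨W, hW, hΔ⟩ := exists_model E hE
      by_contra hcon
      push Not at hcon
      have h1 : W.Δ ∈ ⨅ n : ℕ, v.asIdeal ^ n := by
        rw [Submodule.mem_iInf]
        intro n
        exact hcon n W hW
      rw [Ideal.iInf_pow_eq_bot_of_isDomain _ v.isPrime.ne_top] at h1
      exact hΔ h1
    obtain ⟨W, hW, hΔ⟩ := Nat.find_spec hex
    refine ⟨W, hW, fun W' hW' n hn => ?_⟩
    by_contra hcon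
    have h2 : n < Nat.find hex := by
      by_contra h3
      push Not at h3
      exact hΔ (Ideal.pow_le_pow_right h3 hn)
    exact Nat.find_min hex h2 ⟨W', hW', hcon⟩
  choose V hV using h
  exact ⟨V, hV⟩

/-- almost all prime numbers are not powers in `K` -/
theorem exists_prime_not_pow (K : Type) [Field K] [NumberField K] {p : ℕ} (hp : 2 ≤ p) :
    ∃ l : ℕ, l.Prime ∧ ∀ γ : K, γ ^ p ≠ (l : K) := by
  obtain ⟨l, hl1, hl⟩ := Nat.exists_infinite_primes ((discr K).natAbs + 1)
  refine ⟨l, hl, fun γ hγ => ?_⟩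
  have hlZ : Prime (l : ℤ) := Nat.prime_iff_prime_int.1 hl
  have hnd : ¬ (l : ℤ) ∣ discr K := by
    intro h
    have h1 := Int.natAbs_dvd_natAbs.2 h
    rw [Int.natAbs_natCast] at h1
    have h2 : 0 < (discr K).natAbs := Int.natAbs_pos.2 (discr_ne_zero K)
    have := Nat.le_of_dvd h2 h1
    omega
  have hint : IsIntegral ℤ γ := by
    apply IsIntegral.of_pow (n := p) (by omega)
    rw [hγ]
    exact isIntegral_algebraMap (R := ℤ) (x := (l : ℤ)) |> fun h => by simpa using h
  set c : 𝓞 K := ⟨γ, hint⟩ with hc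
  have hcp : c ^ p = (l : 𝓞 K) := by
    apply RingOfIntegers.coe_injective (K := K)
    rw [map_pow, map_natCast]
    exact hγ
  -- a prime above `l`
  have hne : Ideal.span {(l : 𝓞 K)} ≠ ⊤ := by
    intro h
    rw [Ideal.span_singleton_eq_top] at h
    have h1 := h.map (Algebra.norm ℤ)
    have h2 : ((l : ℕ) : 𝓞 K) = algebraMap ℤ (𝓞 K) (l : ℤ) := by simp
    rw [h2, Algebra.norm_algebraMap, isUnit_pow_iff (Module.finrank_pos).ne'] at h1
    exact hlZ.not_isUnit h1
  obtain ⟨P, hP, hlP⟩ := Ideal.exists_le_maximal _ hne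
  have hlP' : (l : 𝓞 K) ∈ P := hlP (Ideal.mem_span_singleton_self _)
  have h1 := (not_dvd_discr_iff_forall_mem K (𝓞 K) hlZ).1 hnd P hP.isPrime (by simpa using hlP')
  have h2 : ¬ P ∣ differentIdeal ℤ (𝓞 K) := not_dvd_differentIdeal_iff.2 h1
  have hcP : c ∈ P := hP.isPrime.mem_of_pow_mem p (by rw [hcp]; exact hlP')
  have hmax : (Ideal.span {(l : ℤ)}).IsMaximal :=
    PrincipalIdealRing.isMaximal_of_irreducible hlZ.irreducible
  have hbot : Ideal.span {(l : ℤ)} ≠ ⊥ := by
    rw [Ne, Ideal.span_singleton_eq_bot]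
    exact hlZ.ne_zero
  have hdvd : P ^ 2 ∣ (Ideal.span {(l : ℤ)}).map (algebraMap ℤ (𝓞 K)) := by
    rw [Ideal.map_span, Set.image_singleton, Ideal.dvd_iff_le, Ideal.span_singleton_le_iff_mem]
    have e : algebraMap ℤ (𝓞 K) (l : ℤ) = c ^ p := by rw [hcp]; simp
    rw [e]
    exact Ideal.pow_le_pow_right hp (Ideal.pow_mem_pow hcP p)
  have h3 := pow_sub_one_dvd_differentIdeal (A := ℤ) P 2 hbot hdvd
  exact h2 (by simpa using h3)

/-- a finite extension of `K` -/
structure Ext (K : Type) [Field K] [NumberField K] where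
  F : Type
  [field : Field F]
  [nf : NumberField F]
  [alg : Algebra K F]

attribute [instance] Ext.field Ext.nf Ext.alg

/-- pure extensions -/
theorem exists_pure (K : Type) [Field K] [NumberField K] {p : ℕ} (hp : p.Prime) {c : 𝓞 K}
    (hc : ∀ γ : K, γ ^ p ≠ (c : K)) :
    ∃ (Z : Ext K) (B : PowerBasis K Z.F) (α : 𝓞 Z.F), (α : Z.F) = B.gen ∧
      minpoly (𝓞 K) α = X ^ p - C c ∧ Module.finrank K Z.F = p := by
  have hirr : Irreducible (X ^ p - C (c : K)) := X_pow_sub_C_irreducible_of_prime hp hc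
  have hfact : Fact (Irreducible (X ^ p - C (c : K))) := ⟨hirr⟩
  let B : PowerBasis K (AdjoinRoot (X ^ p - C (c : K))) := AdjoinRoot.powerBasis hirr.ne_zero
  have hfin : Module.Finite K (AdjoinRoot (X ^ p - C (c : K))) := B.finite
  have hch : CharZero (AdjoinRoot (X ^ p - C (c : K))) :=
    charZero_of_injective_algebraMap (algebraMap K _).injective
  have hnf : NumberField (AdjoinRoot (X ^ p - C (c : K))) :=
    NumberField.of_module_finite K _
  have hroot : (AdjoinRoot.root (X ^ p - C (c : K))) ^ p = algebraMap K _ (c : K) := by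
    have h1 := AdjoinRoot.eval₂_root (X ^ p - C (c : K))
    rw [eval₂_sub, eval₂_pow, eval₂_X, eval₂_C, sub_eq_zero] at h1
    exact h1
  have hint : IsIntegral ℤ (AdjoinRoot.root (X ^ p - C (c : K))) := by
    apply IsIntegral.of_pow hp.pos
    rw [hroot]
    exact (RingOfIntegers.isIntegral_coe c).map (algebraMap K _).toIntAlgHom
  let α : 𝓞 (AdjoinRoot (X ^ p - C (c : K))) := ⟨AdjoinRoot.root _, hint⟩
  have hα : (α : AdjoinRoot (X ^ p - C (c : K))) = AdjoinRoot.root (X ^ p - C (c : K)) := rfl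
  refine ⟨⟨AdjoinRoot (X ^ p - C (c : K))⟩, B, α, ?_, ?_, ?_⟩
  · exact (AdjoinRoot.powerBasis_gen hirr.ne_zero).symm
  · have h1 := minpoly.isIntegrallyClosed_eq_field_fractions K (AdjoinRoot (X ^ p - C (c : K)))
      (integral_over (K := K) α)
    have h2 : minpoly K (algebraMap (𝓞 (AdjoinRoot (X ^ p - C (c : K))))
        (AdjoinRoot (X ^ p - C (c : K))) α) = X ^ p - C (c : K) := by
      refine (minpoly.eq_of_irreducible_of_monic hirr ?_ (monic_X_pow_sub_C _ hp.ne_zero)).symm
      rw [map_sub, map_pow, aeval_X, aeval_C, sub_eq_zero]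
      exact hroot
    apply Polynomial.map_injective (algebraMap (𝓞 K) K) (RingOfIntegers.coe_injective (K := K))
    rw [← h1, h2, Polynomial.map_sub, Polynomial.map_pow, map_X, map_C]
  · rw [B.finrank]
    exact (AdjoinRoot.powerBasis_dim hirr.ne_zero).trans natDegree_X_pow_sub_C

end

end Pool.Agent.R433.MD
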