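import Pool.Agent.H46.Lib.R_seed8.R433.MD.Descent

/-! Local theory of Weierstrass models: models with discriminants of the same order at `v` have
isomorphic reductions. -/

set_option autoImplicit false

namespace Pool.Agent.R433.MD

open NumberField IsDedekindDomain
open Pool.Agent.H341R2.EC

/-- the number of points is invariant under changes of variables -/
theorem aff_variableChange {k : Type} [Field k] (C : WeierstrassCurve.VariableChange k)
    (W : WeierstrassCurve k) : aff (C • W) = aff W := by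
  unfold aff
  have hu : (C.u : k) ≠ 0 := C.u.ne_zero
  let e : k × k ≃ k × k :=
    { toFun := fun q => ((C.u : k) ^ 2 * q.1 + C.r, (C.u : k) ^ 3 * q.2 +
        (C.u : k) ^ 2 * C.s * q.1 + C.t)
      invFun := fun q => ((q.1 - C.r) / (C.u : k) ^ 2,
        (q.2 - C.s * (q.1 - C.r) - C.t) / (C.u : k) ^ 3)
      left_inv := fun q => by
        ext
        · simp only
          field_simp
          ring
        · simp only
          field_simp
          ring
      right_inv := fun q => by
        ext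
        · simp only
          field_simp
          ring
        · simp only
          field_simp
          ring }
  refine Nat.card_congr (Equiv.subtypeEquiv e fun q => ?_)
  obtain ⟨x, y⟩ := q
  simp only [e, Equiv.coe_fn_mk]
  rw [WeierstrassCurve.variableChange_a₁, WeierstrassCurve.variableChange_a₂,
    WeierstrassCurve.variableChange_a₃, WeierstrassCurve.variableChange_a₄,
    WeierstrassCurve.variableChange_a₆, Units.val_inv_eq_inv_val]
  constructor
  · intro h
    field_simp at h
    linear_combination h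
  · intro h
    field_simp
    linear_combination h

section valuation

variable {K : Type} [Field K] {Γ : Type} [LinearOrderedCommGroupWithZero Γ] (val : Valuation K Γ)

theorem int_two {x a b : K} (ha : val a ≤ 1) (hb : val b ≤ 1) (h : x ^ 2 = a * x + b) :
    val x ≤ 1 := by
  by_contra hx
  push Not at hx
  have h1 : val (a * x + b) ≤ val x := by
    refine val.map_add_le ?_ ?_
    · rw [map_mul]
      exact mul_le_of_le_one_left' ha
    · exact hb.trans hx.le
  rw [← h, map_pow, sq] at h1
  exact absurd h1 (not_le.2 (lt_mul_of_one_lt_left (lt_trans zero_lt_one hx) hx))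

theorem int_three {x a b c : K} (ha : val a ≤ 1) (hb : val b ≤ 1) (hc : val c ≤ 1)
    (h : x ^ 3 = a * x ^ 2 + b * x + c) : val x ≤ 1 := by
  by_contra hx
  push Not at hx
  have hx0 : val x ≤ val x ^ 2 := by
    rw [sq]; exact le_mul_of_one_le_left' hx.le
  have h1 : val (a * x ^ 2 + b * x + c) ≤ val x ^ 2 := by
    refine val.map_add_le (val.map_add_le ?_ ?_) ?_
    · rw [map_mul, map_pow]
      exact mul_le_of_le_one_left' ha
    · rw [map_mul]
      exact (mul_le_of_le_one_left' hb).trans hx0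
    · exact (hc.trans hx.le).trans hx0
  rw [← h, map_pow, pow_succ] at h1
  have h2 : (0 : Γ) < val x ^ 2 := pow_pos (lt_trans zero_lt_one hx) 2
  exact absurd h1 (not_le.2 (lt_mul_of_one_lt_right h2 hx))

theorem int_four {x a b c d : K} (ha : val a ≤ 1) (hb : val b ≤ 1) (hc : val c ≤ 1)
    (hd : val d ≤ 1) (h : x ^ 4 = a * x ^ 3 + b * x ^ 2 + c * x + d) : val x ≤ 1 := by
  by_contra hx
  push Not at hx
  have hx0 : val x ≤ val x ^ 2 := by
    rw [sq]; exact le_mul_of_one_le_left' hx.le
  have hx1 : val x ^ 2 ≤ val x ^ 3 := by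
    rw [pow_succ (val x) 2]; exact le_mul_of_one_le_right' hx.le
  have h1 : val (a * x ^ 3 + b * x ^ 2 + c * x + d) ≤ val x ^ 3 := by
    refine val.map_add_le (val.map_add_le (val.map_add_le ?_ ?_) ?_) ?_
    · rw [map_mul, map_pow]
      exact mul_le_of_le_one_left' ha
    · rw [map_mul, map_pow]
      exact (mul_le_of_le_one_left' hb).trans hx1
    · rw [map_mul]
      exact ((mul_le_of_le_one_left' hc).trans hx0).trans hx1
    · exact ((hd.trans hx.le).trans hx0).trans hx1
  rw [← h, map_pow, pow_succ] at h1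
  have h2 : (0 : Γ) < val x ^ 3 := pow_pos (lt_trans zero_lt_one hx) 3
  exact absurd h1 (not_le.2 (lt_mul_of_one_lt_right h2 hx))

end valuation

section
variable {K : Type} [Field K] [NumberField K] (v : HeightOneSpectrum (𝓞 K))

theorem val_int (x : 𝓞 K) : v.valuation K (x : K) ≤ 1 := v.valuation_le_one x

/-- changes of variables between integral models with `u` a unit are integral -/
theorem int_rst {V V' : WeierstrassCurve (𝓞 K)} {C : WeierstrassCurve.VariableChange K}
    (hC : C • V.map (algebraMap (𝓞 K) K) = V'.map (algebraMap (𝓞 K) K))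
    (hu : v.valuation K (C.u : K) = 1) :
    v.valuation K C.r ≤ 1 ∧ v.valuation K C.s ≤ 1 ∧ v.valuation K C.t ≤ 1 := by
  set val := v.valuation K with hval
  have hu0 : (C.u : K) ≠ 0 := C.u.ne_zero
  have hi : ∀ x : 𝓞 K, val (algebraMap (𝓞 K) K x) ≤ 1 := fun x => v.valuation_le_one x
  have hup : ∀ n : ℕ, val ((C.u : K) ^ n) = 1 := fun n => by rw [map_pow, hu, one_pow]
  -- the relations
  have e2 := congrArg WeierstrassCurve.a₂ hC
  have e6 := congrArg WeierstrassCurve.a₆ hC
  have f6 := congrArg WeierstrassCurve.b₆ hC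
  have f8 := congrArg WeierstrassCurve.b₈ hC
  rw [WeierstrassCurve.variableChange_a₂, Units.val_inv_eq_inv_val] at e2
  rw [WeierstrassCurve.variableChange_a₆, Units.val_inv_eq_inv_val] at e6
  rw [WeierstrassCurve.variableChange_b₆, Units.val_inv_eq_inv_val, WeierstrassCurve.map_b₂,
    WeierstrassCurve.map_b₄, WeierstrassCurve.map_b₆, WeierstrassCurve.map_b₆] at f6
  rw [WeierstrassCurve.variableChange_b₈, Units.val_inv_eq_inv_val, WeierstrassCurve.map_b₂,
    WeierstrassCurve.map_b₄, WeierstrassCurve.map_b₆, WeierstrassCurve.map_b₈,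
    WeierstrassCurve.map_b₈] at f8
  simp only [WeierstrassCurve.map_a₁, WeierstrassCurve.map_a₂] at e2
  simp only [WeierstrassCurve.map_a₁, WeierstrassCurve.map_a₂, WeierstrassCurve.map_a₃,
    WeierstrassCurve.map_a₄, WeierstrassCurve.map_a₆] at e6
  field_simp at e2 e6 f6 f8
  have hsub : ∀ x y : K, val x ≤ 1 → val y ≤ 1 → val (x - y) ≤ 1 := fun x y hx hy =>
    (val.map_sub x y).trans (max_le hx hy)
  have hadd : ∀ x y : K, val x ≤ 1 → val y ≤ 1 → val (x + y) ≤ 1 := fun x y hx hy =>
    val.map_add_le hx hy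
  have hmul : ∀ x y : K, val x ≤ 1 → val y ≤ 1 → val (x * y) ≤ 1 := fun x y hx hy => by
    rw [map_mul]
    exact mul_le_one' hx hy
  have hneg : ∀ x : K, val x ≤ 1 → val (-x) ≤ 1 := fun x hx => by rwa [val.map_neg]
  have h3le : val (3 : K) ≤ 1 := by
    have := hi 3
    rwa [map_ofNat] at this
  have h2le : val (2 : K) ≤ 1 := by
    have := hi 2
    rwa [map_ofNat] at this
  have hr : val C.r ≤ 1 := by
    rcases lt_or_eq_of_le h3le with h3 | h3
    · have h4 : val (4 : K) = 1 := by
        have h5 := val.map_add_eq_of_lt_right (x := (3 : K)) (y := 1) (by rw [map_one]; exact h3)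
        rw [map_one] at h5
        have e : (3 : K) + 1 = 4 := by norm_num
        rwa [e] at h5
      have h40 : (4 : K) ≠ 0 := by norm_num
      have hinv : val (4 : K)⁻¹ = 1 := by rw [map_inv₀, h4, inv_one]
      refine int_three val (a := -((4 : K)⁻¹ * algebraMap (𝓞 K) K V.b₂))
        (b := -((4 : K)⁻¹ * (2 * algebraMap (𝓞 K) K V.b₄)))
        (c := (4 : K)⁻¹ * ((C.u : K) ^ 6 * algebraMap (𝓞 K) K V'.b₆ -
          algebraMap (𝓞 K) K V.b₆)) ?_ ?_ ?_ ?_
      · exact hneg _ (hmul _ _ hinv.le (hi _))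
      · exact hneg _ (hmul _ _ hinv.le (hmul _ _ h2le (hi _)))
      · exact hmul _ _ hinv.le (hsub _ _ (hmul _ _ (hup 6).le (hi _)) (hi _))
      · field_simp
        linear_combination f6
    · have h30 : (3 : K) ≠ 0 := by norm_num
      have hinv : val (3 : K)⁻¹ = 1 := by rw [map_inv₀, h3, inv_one]
      refine int_four val (a := -((3 : K)⁻¹ * algebraMap (𝓞 K) K V.b₂))
        (b := -(algebraMap (𝓞 K) K V.b₄)) (c := -(algebraMap (𝓞 K) K V.b₆))
        (d := (3 : K)⁻¹ * ((C.u : K) ^ 8 * algebraMap (𝓞 K) K V'.b₈ -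
          algebraMap (𝓞 K) K V.b₈)) ?_ ?_ ?_ ?_ ?_
      · exact hneg _ (hmul _ _ hinv.le (hi _))
      · exact hneg _ (hi _)
      · exact hneg _ (hi _)
      · exact hmul _ _ hinv.le (hsub _ _ (hmul _ _ (hup 8).le (hi _)) (hi _))
      · field_simp
        linear_combination f8
  refine ⟨hr, ?_, ?_⟩
  · refine int_two val (a := -(algebraMap (𝓞 K) K V.a₁))
      (b := algebraMap (𝓞 K) K V.a₂ + 3 * C.r - (C.u : K) ^ 2 * algebraMap (𝓞 K) K V'.a₂) ?_ ?_ ?_
    · exact hneg _ (hi _)
    · exact hsub _ _ (hadd _ _ (hi _) (hmul _ _ h3le hr)) (hmul _ _ (hup 2).le (hi _))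
    · linear_combination -e2
  · refine int_two val (a := -(algebraMap (𝓞 K) K V.a₃ + C.r * algebraMap (𝓞 K) K V.a₁))
      (b := algebraMap (𝓞 K) K V.a₆ + C.r * algebraMap (𝓞 K) K V.a₄ +
        C.r ^ 2 * algebraMap (𝓞 K) K V.a₂ + C.r ^ 3 -
        (C.u : K) ^ 6 * algebraMap (𝓞 K) K V'.a₆) ?_ ?_ ?_
    · exact hneg _ (hadd _ _ (hi _) (hmul _ _ hr (hi _)))
    · have hr2 : val (C.r ^ 2) ≤ 1 := by rw [map_pow]; exact pow_le_one' hr 2
      have hr3 : val (C.r ^ 3) ≤ 1 := by rw [map_pow]; exact pow_le_one' hr 3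
      exact hsub _ _ (hadd _ _ (hadd _ _ (hadd _ _ (hi _) (hmul _ _ hr (hi _)))
        (hmul _ _ hr2 (hi _))) hr3) (hmul _ _ (hup 6).le (hi _))
    · linear_combination -e6

/-- isomorphic reductions -/
theorem aff_of_unit {V V' : WeierstrassCurve (𝓞 K)} {C : WeierstrassCurve.VariableChange K}
    (hC : C • V.map (algebraMap (𝓞 K) K) = V'.map (algebraMap (𝓞 K) K))
    (hu : v.valuation K (C.u : K) = 1) : aff (red v V') = aff (red v V) := by
  obtain ⟨hr, hs, ht⟩ := int_rst v hC hu
  have hle : v.asIdeal.primeCompl ≤ nonZeroDivisors (𝓞 K) :=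
    v.asIdeal.primeCompl_le_nonZeroDivisors
  let A := Localization.AtPrime v.asIdeal
  letI : Algebra A K := IsLocalization.localizationAlgebraOfSubmonoidLe A K v.asIdeal.primeCompl
    (nonZeroDivisors (𝓞 K)) hle
  haveI : IsScalarTower (𝓞 K) A K := IsLocalization.localization_isScalarTower_of_submonoid_le A K
    v.asIdeal.primeCompl (nonZeroDivisors (𝓞 K)) hle
  haveI : IsFractionRing A K := IsFractionRing.isFractionRing_of_isDomain_of_isLocalization
    v.asIdeal.primeCompl A K
  have hinj : Function.Injective (algebraMap A K) := IsFractionRing.injective A K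
  -- integral elements come from `A`
  have hA : ∀ x : K, v.valuation K x ≤ 1 → ∃ a : A, algebraMap A K a = x := by
    intro x hx
    obtain ⟨n, d, hnd⟩ := v.exists_primeCompl_mul_eq_of_integer x hx
    have hd0 : algebraMap (𝓞 K) K (d : 𝓞 K) ≠ 0 := by
      rw [Ne, FaithfulSMul.algebraMap_eq_zero_iff]
      intro h
      have h1 := d.2
      rw [h] at h1
      exact h1 v.asIdeal.zero_mem
    refine ⟨IsLocalization.mk' A n d, ?_⟩
    have h2 := IsLocalization.mk'_spec A n d
    have h3 := congrArg (algebraMap A K) h2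
    rw [map_mul, ← IsScalarTower.algebraMap_apply, ← IsScalarTower.algebraMap_apply] at h3
    apply mul_right_cancel₀ hd0
    rw [h3, hnd]
  obtain ⟨r, hr'⟩ := hA _ hr
  obtain ⟨s, hs'⟩ := hA _ hs
  obtain ⟨t, ht'⟩ := hA _ ht
  obtain ⟨u, hu'⟩ := hA _ hu.le
  obtain ⟨w, hw'⟩ := hA ((C.u : K)⁻¹) (by rw [map_inv₀, hu, inv_one])
  have huw : u * w = 1 := by
    apply hinj
    rw [map_mul, hu', hw', map_one, mul_inv_cancel₀ C.u.ne_zero]
  let CA : WeierstrassCurve.VariableChange A :=
    { u := ⟨u, w, huw, by rw [mul_comm]; exact huw⟩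
      r := r
      s := s
      t := t }
  have hCA : CA.map (algebraMap A K) = C := by
    ext
    · exact hu'
    · exact hr'
    · exact hs'
    · exact ht'
  -- the relation over `A`
  have hrel : CA • V.map (algebraMap (𝓞 K) A) = V'.map (algebraMap (𝓞 K) A) := by
    apply WeierstrassCurve.map_injective hinj
    change (CA • V.map (algebraMap (𝓞 K) A)).map (algebraMap A K) =
      (V'.map (algebraMap (𝓞 K) A)).map (algebraMap A K)
    rw [← WeierstrassCurve.map_variableChange, hCA, WeierstrassCurve.map_map,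
      WeierstrassCurve.map_map, ← IsScalarTower.algebraMap_eq (𝓞 K) A K]
    exact hC
  -- reduction
  have hunit : ∀ y : v.asIdeal.primeCompl, IsUnit (Ideal.Quotient.mk v.asIdeal (y : 𝓞 K)) := by
    intro y
    exact isUnit_iff_ne_zero.2 (mk_ne y.2)
  let ρ : A →+* 𝓞 K ⧸ v.asIdeal := IsLocalization.lift hunit
  have hρ : ρ.comp (algebraMap (𝓞 K) A) = Ideal.Quotient.mk v.asIdeal := IsLocalization.lift_comp _
  have h1 := congrArg (fun W => WeierstrassCurve.map W ρ) hrel
  rw [← WeierstrassCurve.map_variableChange, WeierstrassCurve.map_map,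
    WeierstrassCurve.map_map, hρ] at h1
  unfold red
  rw [← h1, aff_variableChange]

/-- discriminants in the same powers of `v` -/
theorem val_eq_of_pow {x y : 𝓞 K} (hx : x ≠ 0)
    (h : ∀ n : ℕ, x ∈ v.asIdeal ^ n → y ∈ v.asIdeal ^ n) :
    v.intValuation y ≤ v.intValuation x := by
  rw [v.intValuation_if_neg hx]
  set n := (Associates.mk v.asIdeal).count (Associates.mk (Ideal.span {x})).factors with hn
  rw [v.intValuation_le_pow_iff_mem]
  apply h
  rw [← v.intValuation_le_pow_iff_mem, v.intValuation_if_neg hx]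

/-- two minimal models have isomorphic reductions -/
theorem aff_minimal {E : WeierstrassCurve K} (hE : E.IsElliptic) {V V' : WeierstrassCurve (𝓞 K)}
    (hV : IsMinAt E v V) (hV' : IsMinAt E v V') :
    aff (red v V') = aff (red v V) ∧ (V.Δ ∈ v.asIdeal ↔ V'.Δ ∈ v.asIdeal) := by
  have h0 := model_ne_zero hE hV.1
  have h0' := model_ne_zero hE hV'.1
  have h1 := val_eq_of_pow v h0 fun n => hV.2 V' hV'.1 n
  have h2 := val_eq_of_pow v h0' fun n => hV'.2 V hV.1 n
  have h3 : v.intValuation V.Δ = v.intValuation V'.Δ := le_antisymm h2 h1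
  refine ⟨?_, ?_⟩
  · obtain ⟨C, hC⟩ := hV.1
    obtain ⟨C', hC'⟩ := hV'.1
    have hrel : (C' * C⁻¹) • V.map (algebraMap (𝓞 K) K) = V'.map (algebraMap (𝓞 K) K) := by
      rw [← hC', ← hC, smul_smul, mul_assoc, inv_mul_cancel, mul_one]
    refine aff_of_unit v hrel ?_
    have hΔ := congrArg WeierstrassCurve.Δ hrel
    rw [WeierstrassCurve.variableChange_Δ, WeierstrassCurve.map_Δ, WeierstrassCurve.map_Δ] at hΔ
    have h4 := congrArg (v.valuation K) hΔ
    rw [map_mul, v.valuation_of_algebraMap, v.valuation_of_algebraMap, ← h3, map_pow,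
      Units.val_inv_eq_inv_val, map_inv₀] at h4
    have h5 : v.intValuation V.Δ ≠ 0 := v.intValuation_ne_zero _ h0
    have h6 : ((v.valuation K ((C' * C⁻¹).u : K))⁻¹) ^ 12 = 1 := by
      have h7 : ((v.valuation K ((C' * C⁻¹).u : K))⁻¹) ^ 12 * v.intValuation V.Δ =
          1 * v.intValuation V.Δ := by rw [h4, one_mul]
      exact mul_right_cancel₀ h5 h7
    have h8 : (v.valuation K ((C' * C⁻¹).u : K))⁻¹ = 1 :=
      (pow_eq_one_iff.1 h6).resolve_right (by norm_num)
    exact inv_eq_one.1 h8
  · rw [← v.intValuation_lt_one_iff_mem, ← v.intValuation_lt_one_iff_mem, h3]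

end

end Pool.Agent.R433.MD
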