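import Pool.Agent.H46.Lib.R_seed8.R433.MD.Exist

/-! The relation attached to a prime number. -/

set_option autoImplicit false

namespace Pool.Agent.R433.MD

open NumberField IsDedekindDomain Polynomial
open Pool.Agent.H341R2.EC

/-- restriction of scalars -/
noncomputable def Ext.restrict {K : Type} [Field K] [NumberField K] (Z : Ext K) (Y : Ext Z.F) :
    Ext K :=
  letI : Algebra K Y.F := ((algebraMap Z.F Y.F).comp (algebraMap K Z.F)).toAlgebra
  ⟨Y.F⟩

/-- the field itself -/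
noncomputable def Ext.self (K : Type) [Field K] [NumberField K] : Ext K := ⟨K⟩

section
variable {K : Type} [Field K] [NumberField K]

theorem finrank_restrict (Z : Ext K) (Y : Ext Z.F) :
    Module.finrank K (Z.restrict Y).F = Module.finrank K Z.F * Module.finrank Z.F Y.F := by
  letI : Algebra K Y.F := ((algebraMap Z.F Y.F).comp (algebraMap K Z.F)).toAlgebra
  haveI : IsScalarTower K Z.F Y.F := IsScalarTower.of_algebraMap_eq' rfl
  exact (Module.finrank_mul_finrank K Z.F Y.F).symm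

theorem map_restrict (Z : Ext K) (Y : Ext Z.F) (E : WeierstrassCurve K) :
    E.map (algebraMap K (Z.restrict Y).F) =
      (E.map (algebraMap K Z.F)).map (algebraMap Z.F Y.F) := by
  rw [WeierstrassCurve.map_map]
  rfl

/-- products `a b^j` are not powers -/
theorem not_pow {F : Type} [Field F] [Algebra K F] {p : ℕ} (hp : p.Prime) {a b : K} {α : F}
    (hα : α ^ p = algebraMap K F a) (ha : ∀ γ : K, γ ^ p ≠ a)
    (hb : ∀ γ : F, γ ^ p ≠ algebraMap K F b) {j : ℕ} (hj : j < p) :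
    ∀ γ : K, γ ^ p ≠ a * b ^ j := by
  intro γ hγ
  rcases Nat.eq_zero_or_pos j with h0 | h0
  · rw [h0, pow_zero, mul_one] at hγ
    exact ha γ hγ
  · have ha0 : a ≠ 0 := fun h => ha 0 (by rw [h, zero_pow hp.ne_zero])
    have hb0 : algebraMap K F b ≠ 0 := fun h => hb 0 (by rw [h, zero_pow hp.ne_zero])
    have ha0' : algebraMap K F a ≠ 0 := by
      rwa [Ne, map_eq_zero_iff _ (algebraMap K F).injective]
    have hα0 : α ≠ 0 := fun h => ha0' (by rw [← hα, h, zero_pow hp.ne_zero])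
    have h1 : (algebraMap K F γ / α) ^ p = (algebraMap K F b) ^ j := by
      rw [div_pow, hα, ← map_pow, hγ, map_mul, map_pow, mul_div_cancel_left₀ _ ha0']
    have hcop : Nat.Coprime j p := by
      rw [Nat.coprime_comm, hp.coprime_iff_not_dvd]
      intro h5
      exact absurd (Nat.le_of_dvd h0 h5) (not_le.2 hj)
    have h6 := Nat.gcd_eq_gcd_ab j p
    rw [hcop] at h6
    refine hb ((algebraMap K F γ / α) ^ (j.gcdA p) * (algebraMap K F b) ^ (j.gcdB p)) ?_
    have h7 : ((algebraMap K F γ / α) ^ (j.gcdA p) * (algebraMap K F b) ^ (j.gcdB p)) ^ p =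
        (algebraMap K F b) ^ ((j : ℤ) * j.gcdA p + (p : ℤ) * j.gcdB p) := by
      rw [mul_pow, ← zpow_natCast, ← zpow_natCast, ← zpow_mul, ← zpow_mul, mul_comm (j.gcdA p),
        zpow_mul, zpow_natCast, h1, ← zpow_natCast, ← zpow_mul, mul_comm (j.gcdB p),
        ← zpow_add₀ hb0]
    rw [h7, ← h6]
    simp

theorem base_step (K : Type) [Field K] [NumberField K] {p : ℕ} (hp : p.Prime) :
    ∃ (Z : Option (Fin p) → Ext K) (Y : Ext K) (D : 𝓞 K),
      (∀ j, Module.finrank K (Z j).F = p) ∧ Module.finrank K Y.F = p * p ∧ D ≠ 0 ∧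
      ∀ (k : Type) [Field k] [Finite k] (φ : 𝓞 K →+* k), φ D ≠ 0 →
        ∑ j, nh (Z j).F φ = nh Y.F φ + p := by
  obtain ⟨l1, hl1, h1⟩ := exists_prime_not_pow K hp.two_le
  set a : 𝓞 K := (l1 : 𝓞 K) with ha
  have ha' : (a : K) = (l1 : K) := map_natCast (algebraMap (𝓞 K) K) l1
  have ha0 : a ≠ 0 := by
    rw [ha]
    exact_mod_cast hl1.ne_zero
  have hapow : ∀ γ : K, γ ^ p ≠ (a : K) := fun γ => by rw [ha']; exact h1 γ
  obtain ⟨Z1, B1, α1, hα1, hmin1, hfr1⟩ := exists_pure K hp hapow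
  obtain ⟨l2, hl2, h2⟩ := exists_prime_not_pow Z1.F hp.two_le
  set b : 𝓞 K := (l2 : 𝓞 K) with hb
  have hb' : (b : K) = (l2 : K) := map_natCast (algebraMap (𝓞 K) K) l2
  have hb0 : b ≠ 0 := by
    rw [hb]
    exact_mod_cast hl2.ne_zero
  have hbpow1 : ∀ γ : Z1.F, γ ^ p ≠ algebraMap K Z1.F (b : K) := fun γ => by
    rw [hb', map_natCast]
    exact h2 γ
  have hbpow : ∀ γ : K, γ ^ p ≠ (b : K) := fun γ hγ => by
    apply hbpow1 (algebraMap K Z1.F γ)
    rw [← map_pow, hγ]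
  have hα1p : (α1 : Z1.F) ^ p = algebraMap K Z1.F (a : K) := by
    have h3 := minpoly.aeval (𝓞 K) α1
    rw [hmin1, map_sub, map_pow, aeval_X, aeval_C, sub_eq_zero] at h3
    have h4 := congrArg (algebraMap (𝓞 Z1.F) Z1.F) h3
    rw [map_pow] at h4
    exact h4
  -- the compositum
  have hbpow2 : ∀ γ : Z1.F, γ ^ p ≠ ((algebraMap (𝓞 K) (𝓞 Z1.F) b : 𝓞 Z1.F) : Z1.F) := hbpow1
  obtain ⟨Y1, B2, β, hβ, hmin2, hfr2⟩ := exists_pure Z1.F hp hbpow2
  have hY : ∃ D : 𝓞 K, D ≠ 0 ∧ ∀ (k : Type) [Field k] [Finite k] (φ : 𝓞 K →+* k), φ D ≠ 0 →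
      nh (Z1.restrict Y1).F φ = rc p (φ a) * rc p (φ b) := by
    letI : Algebra K Y1.F := ((algebraMap Z1.F Y1.F).comp (algebraMap K Z1.F)).toAlgebra
    haveI : IsScalarTower K Z1.F Y1.F := IsScalarTower.of_algebraMap_eq' rfl
    obtain ⟨D, hD0, hD⟩ := nh_double (K := K) (F := Z1.F) (L := Y1.F) B1 hα1 hmin1 B2 hβ hmin2
    exact ⟨D, hD0, fun k _ _ φ hφ => (hD k φ hφ).2⟩
  obtain ⟨DY, hDY0, hDY⟩ := hY
  -- the pure fields
  let c : Option (Fin p) → 𝓞 K := fun j => j.elim b (fun i => a * b ^ (i : ℕ))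
  have hc : ∀ j, ∀ γ : K, γ ^ p ≠ ((c j : 𝓞 K) : K) := by
    rintro (_ | i)
    · exact hbpow
    · intro γ
      have e : ((c (some i) : 𝓞 K) : K) = (a : K) * (b : K) ^ (i : ℕ) := by
        change algebraMap (𝓞 K) K (a * b ^ (i : ℕ)) = _
        rw [map_mul, map_pow]
      rw [e]
      exact not_pow hp hα1p hapow hbpow1 i.2 γ
  choose Z B α hα hmin hfr using fun j => exists_pure K hp (hc j)
  choose D hD0 hD using fun j => nh_pure (B j) (hα j) (hmin j)
  refine ⟨Z, Z1.restrict Y1, a * b * DY * ∏ j, D j, hfr, ?_, ?_, ?_⟩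
  · rw [finrank_restrict, hfr1, hfr2]
  · exact mul_ne_zero (mul_ne_zero (mul_ne_zero ha0 hb0) hDY0)
      (Finset.prod_ne_zero_iff.2 fun j _ => hD0 j)
  · intro k _ _ φ hφ
    rw [map_mul, map_mul, map_mul, map_prod] at hφ
    have e1 := left_ne_zero_of_mul hφ
    have e2 := Finset.prod_ne_zero_iff.1 (right_ne_zero_of_mul hφ)
    have e3 := left_ne_zero_of_mul e1
    have ea := left_ne_zero_of_mul e3
    have eb := right_ne_zero_of_mul e3
    rw [hDY k φ (right_ne_zero_of_mul e1), ← rc_field hp ea eb, Fintype.sum_option]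
    congr 1
    · exact (hD none k φ (e2 none (Finset.mem_univ _))).2
    · rw [← Fin.sum_univ_eq_sum_range (fun j => rc p (φ a * φ b ^ j)) p]
      refine Finset.sum_congr rfl fun i _ => ?_
      rw [(hD (some i) k φ (e2 (some i) (Finset.mem_univ _))).2]
      congr 1
      change φ (a * b ^ (i : ℕ)) = _
      rw [map_mul, map_pow]

end

end Pool.Agent.R433.MD
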